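import Mathlib

/-!
# MP_6dc06d_co, Q1: faithful covers do not always extend across a 5-circuit

Q1 asks whether, for a cubic graph `G` with an eulerian weight `w : E(G) → {1,2}` and an edge
`e₀` of weight 2 lying on a circuit `C₀` of length 5 whose other four edges have weight 1, a
faithful circuit cover of `(G - e₀, w)` always gives one of `(G, w)`.

The answer is **no**.  The counterexample is a connected simple cubic graph on 18 vertices; every
vertex is incident with two edges of weight 1 and one edge of weight 2.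
-/

namespace Pool.Agent.Results.MP_6dc06d_co.FiveCircuitExtensionFails

open SimpleGraph Finset

/-- A faithful circuit cover of `(H, w)`: a finite family of circuits of `H` (closed walks
without repeated vertices, `Walk.IsCycle`), repetitions allowed, such that every edge `e` of `H`
lies in exactly `w e` members of the family. -/
def HasFaithfulCover {V : Type} [DecidableEq V] (H : SimpleGraph V) (w : Sym2 V → ℕ) : Prop :=
  ∃ (n : ℕ) (C : Fin n → Σ v : V, H.Walk v v),
    (∀ i, (C i).2.IsCycle) ∧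
      ∀ e ∈ H.edgeSet, (univ.filter fun i => e ∈ (C i).2.edges).card = w e

/-- The nine edges of weight 2 (a perfect matching). -/
def two : List (Fin 18 × Fin 18) :=
  [(4, 6), (3, 5), (2, 7), (9, 10), (8, 11), (15, 1), (16, 0), (17, 12), (13, 14)]

/-- The eighteen edges of weight 1 (a 2-factor). -/
def one : List (Fin 18 × Fin 18) :=
  [(1, 2), (0, 2), (3, 4), (1, 3), (0, 4), (6, 7), (5, 7), (8, 9), (11, 12), (10, 12),
   (5, 8), (6, 10), (13, 9), (14, 11), (14, 15), (15, 16), (16, 17), (17, 13)]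

/-- Adjacency as a Boolean table. -/
def adj (a b : Fin 18) : Bool :=
  (a, b) ∈ two || (b, a) ∈ two || (a, b) ∈ one || (b, a) ∈ one

/-- The graph. -/
def G : SimpleGraph (Fin 18) where
  Adj a b := adj a b = true
  symm := ⟨by decide +kernel⟩
  loopless := ⟨by decide +kernel⟩

instance : DecidableRel G.Adj := fun a b => inferInstanceAs (Decidable (adj a b = true))

/-- The weight. -/
def w (e : Sym2 (Fin 18)) : ℕ := if e ∈ two.map (fun p => s(p.1, p.2)) then 2 else 1

/-- A cycle meets the three edges at a vertex of degree 3 in an even number of edges. -/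
theorem parity {V : Type} [DecidableEq V] {H : SimpleGraph V} {u : V} (p : H.Walk u u)
    (hp : p.IsCycle) {v a b m : V} (hN : ∀ x, H.Adj v x → x = a ∨ x = b ∨ x = m)
    (hab : a ≠ b) (ham : a ≠ m) (hbm : b ≠ m) :
    (s(v, m) ∈ p.edges ↔ ¬ (s(v, a) ∈ p.edges ↔ s(v, b) ∈ p.edges)) := by
  have h : Even (p.edges.countP fun e => v ∈ e) :=
    (hp.isTrail.even_countP_edges_iff v).2 fun h => absurd rfl h
  have nd : p.edges.Nodup := hp.isTrail.edges_nodup
  have key : p.edges.countP (fun e => v ∈ e)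
      = (({s(v, a), s(v, b), s(v, m)} : Finset (Sym2 V)).filter (· ∈ p.edges)).card := by
    rw [List.countP_eq_length_filter, ← List.toFinset_card_of_nodup (nd.filter _)]
    congr 1
    ext e
    simp only [List.mem_toFinset, List.mem_filter, decide_eq_true_eq, Finset.mem_filter,
      mem_insert, mem_singleton]
    constructor
    · rintro ⟨he, hv⟩
      obtain ⟨x, rfl⟩ := Sym2.mem_iff_exists.mp hv
      have := p.adj_of_mem_edges he
      rcases hN x this with rfl | rfl | rfl <;> simp [he]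
    · rintro ⟨h | h | h, he⟩ <;> subst h <;> simp [he]
  rw [key, Finset.card_filter, Finset.sum_insert, Finset.sum_insert, Finset.sum_singleton] at h
  · by_cases h1 : s(v, a) ∈ p.edges <;> by_cases h2 : s(v, b) ∈ p.edges <;>
      by_cases h3 : s(v, m) ∈ p.edges <;> simp [h1, h2, h3] at h ⊢ <;> revert h <;> decide
  · simp only [mem_singleton, Sym2.congr_right]; exact hbm
  · simp only [mem_insert, mem_singleton, Sym2.congr_right]; tauto

/-- The circuits through an edge of weight 2 both of whose ends carry two edges of weight 1. -/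
theorem match2 {n : ℕ} {S : Finset (Fin n)} {a b a' b' : Fin n} (hS : S.card = 2)
    (h : ∀ i, i ∈ S ↔ ¬ (i = a ↔ i = b)) (h' : ∀ i, i ∈ S ↔ ¬ (i = a' ↔ i = b')) :
    ((a = a' ∧ b = b') ∨ (a = b' ∧ b = a')) ∧ a ≠ b := by
  have hab : a ≠ b := by
    rintro rfl
    have : S = ∅ := by ext i; simp [h i]
    simp [this] at hS
  have hab' : a' ≠ b' := by
    rintro rfl
    have : S = ∅ := by ext i; simp [h' i]
    simp [this] at hS
  refine ⟨?_, hab⟩
  have k1 : ¬ (a = a' ↔ a = b') := (h' a).1 ((h a).2 (by simp [hab]))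
  have k2 : ¬ (b = a' ↔ b = b') := (h' b).1 ((h b).2 (by simp [hab.symm]))
  have k3 : ¬ (a' = a ↔ a' = b) := (h a').1 ((h' a').2 (by simp [hab']))
  have k4 : ¬ (b' = a ↔ b' = b) := (h b').1 ((h' b').2 (by simp [hab'.symm]))
  grind

/-- The system of equations for the circuits through the edges of weight 1 has no solution. -/
theorem comb {α : Type} {c0 c1 c2 c3 c4 c5 c6 c10 c11 c12 c15 c16 c20 c21 c23 c24 c25 c26 : α}
    (h7 : ((c2 = c5 ∧ c4 = c16) ∨ (c2 = c16 ∧ c4 = c5)) ∧ c2 ≠ c4)
    (h8 : ((c2 = c6 ∧ c3 = c15) ∨ (c2 = c15 ∧ c3 = c6)) ∧ c2 ≠ c3)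
    (h9 : ((c0 = c5 ∧ c1 = c6) ∨ (c0 = c6 ∧ c1 = c5)) ∧ c0 ≠ c1)
    (h13 : ((c10 = c12 ∧ c20 = c16) ∨ (c10 = c16 ∧ c20 = c12)) ∧ c10 ≠ c20)
    (h14 : ((c10 = c11 ∧ c15 = c21) ∨ (c10 = c21 ∧ c15 = c11)) ∧ c10 ≠ c15)
    (h17 : ((c23 = c0 ∧ c24 = c3) ∨ (c23 = c3 ∧ c24 = c0)) ∧ c23 ≠ c24)
    (h18 : ((c24 = c1 ∧ c25 = c4) ∨ (c24 = c4 ∧ c25 = c1)) ∧ c24 ≠ c25)
    (h19 : ((c25 = c11 ∧ c26 = c12) ∨ (c25 = c12 ∧ c26 = c11)) ∧ c25 ≠ c26)
    (h22 : ((c20 = c21 ∧ c26 = c23) ∨ (c20 = c23 ∧ c26 = c21)) ∧ c20 ≠ c26) : False := by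
  grind

/-- `(G, w)` has no faithful circuit cover. -/
theorem no_cover : ¬ HasFaithfulCover G w := by
  rintro ⟨n, C, hC, hw⟩
  have h1 : ∀ e : Sym2 (Fin 18), e ∈ G.edgeSet → w e = 1 →
      ∃ c, ∀ i, (e ∈ (C i).2.edges ↔ i = c) := by
    intro e he h
    have := hw e he
    rw [h, Finset.card_eq_one] at this
    obtain ⟨c, hc⟩ := this
    exact ⟨c, fun i => by simpa using Finset.ext_iff.1 hc i⟩
  have : Nonempty (Fin n) :=
    ⟨(h1 s(1, 2) (show adj 1 2 = true by decide +kernel) (by decide +kernel)).choose⟩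
  choose! c hc using h1
  -- `d a b` is the circuit through the edge `ab` of weight 1
  obtain ⟨d, hdc⟩ : ∃ d : Fin 18 → Fin 18 → Fin n, ∀ a b, d a b = c s(a, b) :=
    ⟨fun a b => c s(a, b), fun _ _ => rfl⟩
  have hd : ∀ a b, d a b = d b a := fun a b => by rw [hdc, hdc, Sym2.eq_swap]
  have hcd : ∀ a b : Fin 18, adj a b = true → w s(a, b) = 1 →
      ∀ i, (s(a, b) ∈ (C i).2.edges ↔ i = d a b) := fun a b hab h => by
    rw [hdc]; exact hc _ hab h
  have h2 : ∀ v u a b a' b' : Fin 18,
      (adj v u = true ∧ w s(v, u) = 2 ∧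
        (adj v a = true ∧ w s(v, a) = 1 ∧ adj v b = true ∧ w s(v, b) = 1 ∧
          adj u a' = true ∧ w s(u, a') = 1 ∧ adj u b' = true ∧ w s(u, b') = 1) ∧
        (∀ x, adj v x = true → x = a ∨ x = b ∨ x = u) ∧ (a ≠ b ∧ a ≠ u ∧ b ≠ u) ∧
        (∀ x, adj u x = true → x = a' ∨ x = b' ∨ x = v) ∧ (a' ≠ b' ∧ a' ≠ v ∧ b' ≠ v)) →
      ((d v a = d u a' ∧ d v b = d u b') ∨ (d v a = d u b' ∧ d v b = d u a')) ∧
        d v a ≠ d v b := by
    rintro v u a b a' b' ⟨hvu, hw2, ⟨p1, p2, p3, p4, p5, p6, p7, p8⟩, hv, hv', hu, hu'⟩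
    refine match2 (S := univ.filter fun i => s(v, u) ∈ (C i).2.edges) ?_ ?_ ?_
    · rw [hw _ (show G.Adj v u from hvu), hw2]
    · intro i
      rw [Finset.mem_filter, parity (C i).2 (hC i) hv hv'.1 hv'.2.1 hv'.2.2,
        hcd _ _ p1 p2 i, hcd _ _ p3 p4 i]
      simp
    · intro i
      rw [Finset.mem_filter, Sym2.eq_swap, parity (C i).2 (hC i) hu hu'.1 hu'.2.1 hu'.2.2,
        hcd _ _ p5 p6 i, hcd _ _ p7 p8 i]
      simp
  have h7 := h2 4 6 3 0 7 10 (by decide +kernel)
  rw [hd 4 3, hd 4 0] at h7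
  have h8 := h2 3 5 4 1 7 8 (by decide +kernel)
  rw [hd 3 1] at h8
  have h9 := h2 2 7 1 0 6 5 (by decide +kernel)
  rw [hd 2 1, hd 2 0, hd 7 6, hd 7 5] at h9
  have h13 := h2 9 10 8 13 12 6 (by decide +kernel)
  rw [hd 9 8, hd 9 13, hd 10 6] at h13
  have h14 := h2 8 11 9 5 12 14 (by decide +kernel)
  rw [hd 8 5, hd 11 14] at h14
  have h17 := h2 15 1 14 16 2 3 (by decide +kernel)
  rw [hd 15 14] at h17
  have h18 := h2 16 0 15 17 2 4 (by decide +kernel)
  rw [hd 16 15] at h18
  have h19 := h2 17 12 16 13 11 10 (by decide +kernel)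
  rw [hd 17 16, hd 12 11, hd 12 10] at h19
  have h22 := h2 13 14 9 17 11 15 (by decide +kernel)
  rw [hd 13 17] at h22
  exact comb h7 h8 h9 h13 h14 h17 h18 h19 h22

/-- The graph `G - e₀`, `e₀` the edge joining 13 and 14. -/
abbrev G' : SimpleGraph (Fin 18) := G.deleteEdges {s(13, 14)}

theorem adj' {a b : Fin 18} (h : (adj a b && !decide (s(a, b) = s(13, 14))) = true) :
    G'.Adj a b := by
  rw [deleteEdges_adj]
  simp only [Bool.and_eq_true, Bool.not_eq_true', decide_eq_false_iff_not] at h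
  exact ⟨h.1, h.2⟩

/-- First circuit of the cover of `G - e₀`. -/
def A : G'.Walk 1 1 :=
  .cons (v := 2) (adj' (by decide +kernel)) <| .cons (v := 7) (adj' (by decide +kernel)) <|
  .cons (v := 6) (adj' (by decide +kernel)) <| .cons (v := 4) (adj' (by decide +kernel)) <|
  .cons (v := 3) (adj' (by decide +kernel)) <| .cons (v := 5) (adj' (by decide +kernel)) <|
  .cons (v := 8) (adj' (by decide +kernel)) <| .cons (v := 11) (adj' (by decide +kernel)) <|
  .cons (v := 14) (adj' (by decide +kernel)) <| .cons (v := 15) (adj' (by decide +kernel)) <|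
  .cons (adj' (by decide +kernel)) .nil

/-- Second circuit. -/
def B : G'.Walk 0 0 :=
  .cons (v := 2) (adj' (by decide +kernel)) <| .cons (v := 7) (adj' (by decide +kernel)) <|
  .cons (v := 5) (adj' (by decide +kernel)) <| .cons (v := 3) (adj' (by decide +kernel)) <|
  .cons (v := 1) (adj' (by decide +kernel)) <| .cons (v := 15) (adj' (by decide +kernel)) <|
  .cons (v := 16) (adj' (by decide +kernel)) <| .cons (adj' (by decide +kernel)) .nil

/-- Third circuit. -/
def C : G'.Walk 0 0 :=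
  .cons (v := 4) (adj' (by decide +kernel)) <| .cons (v := 6) (adj' (by decide +kernel)) <|
  .cons (v := 10) (adj' (by decide +kernel)) <| .cons (v := 9) (adj' (by decide +kernel)) <|
  .cons (v := 8) (adj' (by decide +kernel)) <| .cons (v := 11) (adj' (by decide +kernel)) <|
  .cons (v := 12) (adj' (by decide +kernel)) <| .cons (v := 17) (adj' (by decide +kernel)) <|
  .cons (v := 16) (adj' (by decide +kernel)) <| .cons (adj' (by decide +kernel)) .nil

/-- Fourth circuit. -/
def D : G'.Walk 9 9 :=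
  .cons (v := 10) (adj' (by decide +kernel)) <| .cons (v := 12) (adj' (by decide +kernel)) <|
  .cons (v := 17) (adj' (by decide +kernel)) <| .cons (v := 13) (adj' (by decide +kernel)) <|
  .cons (adj' (by decide +kernel)) .nil

theorem isCycle_of {V : Type} [DecidableEq V] {H : SimpleGraph V} {u : V} {p : H.Walk u u}
    (h : (decide p.edges.Nodup && decide (p.length ≠ 0) && decide p.support.tail.Nodup) = true) :
    p.IsCycle := by
  simp only [Bool.and_eq_true, decide_eq_true_eq] at h
  rw [Walk.isCycle_def, Walk.isTrail_def]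
  refine ⟨h.1.1, ?_, h.2⟩
  rintro rfl
  exact h.1.2 rfl

/-- `(G - e₀, w)` has a faithful circuit cover. -/
theorem cover : HasFaithfulCover G' w := by
  refine ⟨4, ![⟨1, A⟩, ⟨0, B⟩, ⟨0, C⟩, ⟨9, D⟩], ?_, ?_⟩
  · intro i
    fin_cases i
    · exact isCycle_of (p := A) (by decide +kernel)
    · exact isCycle_of (p := B) (by decide +kernel)
    · exact isCycle_of (p := C) (by decide +kernel)
    · exact isCycle_of (p := D) (by decide +kernel)
  · have key : ∀ a b : Fin 18, (adj a b && !decide (s(a, b) = s(13, 14))) = true →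
        (univ.filter fun i : Fin 4 =>
          s(a, b) ∈ ((![⟨1, A⟩, ⟨0, B⟩, ⟨0, C⟩, ⟨9, D⟩] :
            Fin 4 → Σ v : Fin 18, G'.Walk v v) i).2.edges).card = w s(a, b) := by
      decide +kernel
    intro e he
    induction e using Sym2.ind with
    | _ a b =>
      refine key a b ?_
      rw [mem_edgeSet, deleteEdges_adj] at he
      simp only [Bool.and_eq_true, Bool.not_eq_true', decide_eq_false_iff_not]
      exact ⟨he.1, he.2⟩

/-- The circuit `C₀` of length 5. -/
def C₀ : G.Walk 13 13 :=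
  .cons (v := 14) (show adj 13 14 = true by decide +kernel) <|
  .cons (v := 15) (show adj 14 15 = true by decide +kernel) <|
  .cons (v := 16) (show adj 15 16 = true by decide +kernel) <|
  .cons (v := 17) (show adj 16 17 = true by decide +kernel) <|
  .cons (show adj 17 13 = true by decide +kernel) .nil

/-- Parents in a spanning tree with root 0. -/
def par : Fin 18 → Fin 18 := ![0, 2, 0, 4, 0, 7, 4, 2, 5, 10, 6, 14, 17, 17, 15, 16, 0, 16]

theorem connected : G.Connected := by
  have h1 : ∀ x : Fin 18, x = par x ∨ adj x (par x) = true := by decide +kernel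
  have h2 : ∀ (k : ℕ) (x : Fin 18), G.Reachable x (par^[k] x) := by
    intro k
    induction k with
    | zero => intro x; exact Reachable.refl _
    | succ k ih =>
      intro x
      rw [Function.iterate_succ_apply]
      rcases h1 x with h | h
      · rw [← h]; exact ih x
      · exact (Adj.reachable (show G.Adj x (par x) from h)).trans (ih _)
  have h3 : ∀ x : Fin 18, par^[17] x = 0 := by decide +kernel
  rw [connected_iff_exists_forall_reachable]
  exact ⟨0, fun x => by have := h2 17 x; rw [h3 x] at this; exact this.symm⟩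

/-- **Disproof of Q1 of MP_6dc06d_co.**  There are a connected cubic simple graph `G` (on 18
vertices), an eulerian weight `w : E(G) → {1, 2}`, an edge `e₀ = v₀v₁` of weight 2 and a circuit
`C₀` of length 5 through `e₀`, whose only edge of weight 2 is `e₀`, such that `(G - e₀, w)` has a
faithful circuit cover but `(G, w)` has none. -/
theorem result : ∃ (G : SimpleGraph (Fin 18)) (_ : DecidableRel G.Adj) (w : Sym2 (Fin 18) → ℕ)
    (v₀ v₁ : Fin 18) (C₀ : G.Walk v₀ v₀),
    G.Connected ∧ (∀ v, G.degree v = 3) ∧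
    (∀ e ∈ G.edgeSet, w e = 1 ∨ w e = 2) ∧
    (∀ v, Even (∑ u ∈ G.neighborFinset v, w s(v, u))) ∧
    G.Adj v₀ v₁ ∧ w s(v₀, v₁) = 2 ∧
    C₀.IsCycle ∧ C₀.length = 5 ∧ s(v₀, v₁) ∈ C₀.edges ∧
    (∀ e ∈ C₀.edges, w e = 2 ↔ e = s(v₀, v₁)) ∧
    HasFaithfulCover (G.deleteEdges {s(v₀, v₁)}) w ∧
    ¬ HasFaithfulCover G w := by
  refine ⟨G, inferInstance, w, 13, 14, C₀, ?_, ?_, ?_, ?_, ?_, ?_, ?_, ?_, ?_, ?_, cover,
    no_cover⟩
  · exact connected
  · decide +kernel
  · intro e _
    unfold w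
    split_ifs <;> simp
  · decide +kernel
  · exact (show adj 13 14 = true by decide +kernel)
  · decide +kernel
  · exact isCycle_of (by decide +kernel)
  · decide +kernel
  · decide +kernel
  · decide +kernel

end Pool.Agent.Results.MP_6dc06d_co.FiveCircuitExtensionFails
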